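import Pool.Agent.helper83.GR2.Defs
import Pool.Agent.helper83.GR.All
import Pool.Agent.helper91.DI.B6

/-!
# Project gr (MP_baa4d7_al), second part: twists by linear characters and arbitrary automorphisms
-/

set_option autoImplicit false

namespace Pool.Agent.GR2

open Pool.Agent.helper58.DC Pool.Agent.DI
open Pool.Agent.GR (Setup PEl PReg Cz Blk Sf BC)

section

variable {G : Type} [Group G]

/-- `|L|⁻¹ ∑_v l(v) ∑_ψ ψ((α⁻¹ v)^s) ψ(v⁻¹)`, over the `p`-regular `v ∈ L` and `ψ` in `Blk M χ L` -/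
noncomputable def tau (p : ℕ) (M : Ideal (integralClosure ℤ ℂ)) (χ : G → ℂ) (s : ℕ)
    (l : G →* ℂˣ) (L : Subgroup G) (α : MulAut G) : ℂ :=
  (∑ᶠ v ∈ {v : G | v ∈ L ∧ PReg p v}, ((l v : ℂˣ) : ℂ) * Sf (Blk M χ L) ((α⁻¹ v) ^ s) v) /
    Nat.card L

/-- the number of `ψ ∈ Blk M χ H` which are fixed by `(α, σ, l)` -/
noncomputable def cnt (M : Ideal (integralClosure ℤ ℂ)) (χ : G → ℂ) (H : Subgroup G)
    (α : MulAut G) (σ : ℂ ≃+* ℂ) (l : G →* ℂˣ) : ℕ :=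
  Nat.card {ψ : G → ℂ // ψ ∈ Blk M χ H ∧ ∀ g, ψ g = ((l g : ℂˣ) : ℂ) * funMap α (galMap σ ψ) g}

end

/-- The function of a subgroup `N` of `E` which is summed over the chains. -/
noncomputable def gE {G E A : Type} [Group G] [Group E] [Group A] (X : Extension G E A)
    (M : Ideal (integralClosure ℤ ℂ)) (χ : G → ℂ) (a : A) (σ : ℂ ≃+* ℂ) (l : G →* ℂˣ)
    (N : Subgroup E) : ℤ :=
  ∑ᶠ e ∈ {e : E | e ∈ N ∧ X.proj e = a}, (cnt M χ (N.comap X.inc) (X.act e) σ l : ℤ)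

/-- the exponent of `σ` on the `n`-th roots of unity -/
structure Ex (n : ℕ) (σ : ℂ ≃+* ℂ) (s : ℕ) : Prop where
  cop : s.Coprime n
  act : ∀ ζ : ℂ, ζ ^ n = 1 → σ ζ = ζ ^ s

theorem exists_Ex (p n : ℕ) (hp : p.Prime) (hn : 0 < n) (σ : ℂ ≃+* ℂ) : ∃ s, Ex n σ s := by
  obtain ⟨s, h1, h2⟩ := (GR.All.dGLS p n σ hp hn).1
  exact ⟨s, h1, h2⟩

/-! ## CNT -/

theorem lin_mem {G : Type} [Group G] [Finite G] (H : Subgroup G) (φ : G → ℂ) (hφ : φ ∈ IrrOn H)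
    (l : G →* ℂˣ) : (fun g => ((l g : ℂˣ) : ℂ) * φ g) ∈ IrrOn H := by
  refine ⟨fun g hg => by
    show ((l g : ℂˣ) : ℂ) * φ g = 0
    rw [hφ.1 g hg, mul_zero], ?_⟩
  exact DI.B6 H _ hφ.2 (l.comp H.subtype)

theorem CNT (M : Ideal (integralClosure ℤ ℂ)) (G : Type) [Group G] [Finite G] (H : Subgroup G)
    (χ : G → ℂ) (α : MulAut G) (σ : ℂ ≃+* ℂ) (l : G →* ℂˣ) (s : ℕ)
    (hα : H.map α.toMonoidHom = H) (hEx : Ex (Nat.card G) σ s) :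
    (Nat.card H : ℂ) * cnt M χ H α σ l =
      ∑ᶠ g ∈ (H : Set G), ((l g : ℂˣ) : ℂ) * Sf (Blk M χ H) ((α⁻¹ g) ^ s) g := by
  classical
  obtain ⟨hfin, hB⟩ := GR.All.dB2 G H
  have hSfin : (Blk M χ H).Finite := hfin.subset fun ψ hψ => hψ.1
  have hφ0 : ∀ ψ ∈ IrrOn H, funMap α (galMap σ ψ) ∈ IrrOn H := by
    intro ψ hψ
    have h1 := ((GR.All.dIF G H).2 _ (GR.All.dGLI G H σ ψ hψ)).2.2 α
    rwa [hα] at h1
  have hφ : ∀ ψ ∈ IrrOn H, (fun g => ((l g : ℂˣ) : ℂ) * funMap α (galMap σ ψ) g) ∈ IrrOn H :=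
    fun ψ hψ => lin_mem H _ (hφ0 ψ hψ) l
  have hφe : ∀ ψ ∈ IrrOn H, ∀ g, funMap α (galMap σ ψ) g = ψ ((α⁻¹ g) ^ s) := by
    intro ψ hψ g
    exact GR.All.dGLP G σ s hEx.cop hEx.act H ψ hψ (α⁻¹ g)
  set FH : Finset G := (Set.toFinite (H : Set G)).toFinset with hFH
  set FS : Finset (G → ℂ) := hSfin.toFinset with hFS
  have h1 : ∑ᶠ g ∈ (H : Set G), ((l g : ℂˣ) : ℂ) * Sf (Blk M χ H) ((α⁻¹ g) ^ s) g =
      ∑ g ∈ FH, ∑ ψ ∈ FS, ((l g : ℂˣ) : ℂ) * ψ ((α⁻¹ g) ^ s) * ψ g⁻¹ := by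
    rw [finsum_mem_eq_finite_toFinset_sum _ (Set.toFinite _)]
    refine Finset.sum_congr rfl fun g _ => ?_
    unfold Sf
    rw [finsum_mem_eq_finite_toFinset_sum _ hSfin, Finset.mul_sum]
    refine Finset.sum_congr rfl fun ψ _ => ?_
    rw [mul_assoc]
  have h2 : ∀ ψ ∈ FS, ∑ g ∈ FH, ((l g : ℂˣ) : ℂ) * ψ ((α⁻¹ g) ^ s) * ψ g⁻¹ =
      if (∀ g, ψ g = ((l g : ℂˣ) : ℂ) * funMap α (galMap σ ψ) g) then (Nat.card H : ℂ) else 0 := by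
    intro ψ hψ
    have hψ' : ψ ∈ IrrOn H := ((Set.Finite.mem_toFinset hSfin).1 hψ).1
    have h3 := (hB _ (hφ ψ hψ')).2.2.2.2 ψ hψ'
    have h4 : ∑ᶠ g : G, ((l g : ℂˣ) : ℂ) * funMap α (galMap σ ψ) g * ψ g⁻¹ =
        ∑ g ∈ FH, ((l g : ℂˣ) : ℂ) * funMap α (galMap σ ψ) g * ψ g⁻¹ := by
      apply finsum_eq_sum_of_support_subset
      intro g hg
      rw [Function.mem_support] at hg
      rw [hFH, Set.Finite.coe_toFinset]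
      by_contra hgH
      exact hg (by rw [(hB _ (hφ0 ψ hψ')).2.2.2.1 g hgH, mul_zero, zero_mul])
    rw [h4] at h3
    have h5 : ∑ g ∈ FH, ((l g : ℂˣ) : ℂ) * ψ ((α⁻¹ g) ^ s) * ψ g⁻¹ =
        ∑ g ∈ FH, ((l g : ℂˣ) : ℂ) * funMap α (galMap σ ψ) g * ψ g⁻¹ :=
      Finset.sum_congr rfl fun g _ => by rw [hφe ψ hψ' g]
    rw [h5, h3]
    by_cases hc : ∀ g, ψ g = ((l g : ℂˣ) : ℂ) * funMap α (galMap σ ψ) g
    · rw [if_pos hc, if_pos]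
      funext g
      exact (hc g).symm
    · rw [if_neg hc, if_neg]
      intro h
      exact hc fun g => (congrFun h g).symm
  rw [h1, Finset.sum_comm, Finset.sum_congr rfl h2, ← Finset.sum_filter, Finset.sum_const,
    nsmul_eq_mul, mul_comm]
  congr 2
  unfold cnt
  have h6 : {ψ : G → ℂ | ψ ∈ Blk M χ H ∧ ∀ g, ψ g = ((l g : ℂˣ) : ℂ) * funMap α (galMap σ ψ) g} =
      ((FS.filter fun ψ => ∀ g, ψ g = ((l g : ℂˣ) : ℂ) * funMap α (galMap σ ψ) g :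
        Finset (G → ℂ)) : Set (G → ℂ)) := by
    ext ψ
    simp [hFS]
  have h7 : Nat.card {ψ : G → ℂ // ψ ∈ Blk M χ H ∧
      ∀ g, ψ g = ((l g : ℂˣ) : ℂ) * funMap α (galMap σ ψ) g} =
      Set.ncard {ψ : G → ℂ | ψ ∈ Blk M χ H ∧
        ∀ g, ψ g = ((l g : ℂˣ) : ℂ) * funMap α (galMap σ ψ) g} := rfl
  rw [h7, h6, Set.ncard_coe_finset]

end Pool.Agent.GR2
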