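import Mathlib
import Pool.Agent.helper58.DC.Defs

/-!
# Project gr (MP_baa4d7_al): rigidity of the alternating sums. Definitions.

The definitions `Irr`, `IrrOn`, `Induces`, `IsOp`, `nrm`, `IsRadical`, `chainMap`, `funMap`,
`chainRel`, `Extension`, `altSum` are those of `Pool/Agent/helper58/DC/Defs.lean`.
-/

set_option autoImplicit false

namespace Pool.Agent.GR2

open Pool.Agent.helper58.DC

/-- The group of all automorphisms of the field of complex numbers which fix all `n`-th roots of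
unity whose order is not divisible by `p ^ (j + 1)`. -/
def PFix (p j n : ℕ) (σ : ℂ ≃+* ℂ) : Prop :=
  ∀ ζ : ℂ, ζ ^ n = 1 → ¬ p ^ (j + 1) ∣ orderOf ζ → σ ζ = ζ

/-- The image of a complex valued function under an automorphism of the field of complex
numbers. -/
def galMap {G : Type} (σ : ℂ ≃+* ℂ) (ψ : G → ℂ) : G → ℂ := fun g => σ (ψ g)

/-- The orbit of `ψ` under the group of all `σ` with `PFix p j |G| σ`. -/
def galOrbit {G : Type} (p j : ℕ) (ψ : G → ℂ) : Set (G → ℂ) :=
  {φ | ∃ σ : ℂ ≃+* ℂ, PFix p j (Nat.card G) σ ∧ φ = galMap σ ψ}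

section

variable {G E A : Type} [Group G] [Group E] [Group A] (X : Extension G E A)

/-- The triple `(a, σ, l)` fixes `ψ`: for some element `e` of `E` over `a` which fixes the chain `C` the
product of `l` and the image under `e` of the Galois conjugate of `ψ` by `σ` is `ψ`. -/
def Fixed (a : A) (σ : ℂ ≃+* ℂ) (l : G →* ℂˣ) (C : Finset (Subgroup G)) (ψ : G → ℂ) : Prop :=
  ∃ e : E, X.proj e = a ∧ chainMap (X.act e) C = C ∧
    ∀ g, ψ g = ((l g : ℂˣ) : ℂ) * funMap (X.act e) (galMap σ ψ) g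

/-- The number of irreducible characters `ψ` of `N_G(C)` with `b(ψ)^G = B` which are fixed by
`(a, σ, l)`, where `B` is the block of `χ`. -/
noncomputable def fixCount (M : Ideal (integralClosure ℤ ℂ)) (χ : G → ℂ) (a : A) (σ : ℂ ≃+* ℂ)
    (l : G →* ℂˣ) (C : Finset (Subgroup G)) : ℕ :=
  Nat.card {ψ : G → ℂ // ψ ∈ IrrOn (nrm C) ∧ Induces M ψ χ ∧ Fixed X a σ l C ψ}

/-- The alternating sum of the numbers `fixCount`, over one chain `C` of each conjugacy class of
radical `p`-chains of `G`. -/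
noncomputable def fixSum (p : ℕ) (M : Ideal (integralClosure ℤ ℂ)) (χ : G → ℂ) (a : A)
    (σ : ℂ ≃+* ℂ) (l : G →* ℂˣ) : ℤ :=
  ∑ᶠ c : Quot (chainRel (G := G) p),
    (-1) ^ (c.out.1.card - 1) * (fixCount X M χ a σ l c.out.1 : ℤ)

/-- The number of irreducible characters `ψ` of `N_G(C)` with `b(ψ)^G = B` which are fixed by
`(a, σ)` and have exactly `m` conjugates under the group of all `τ` with `PFix p j |G| τ`. -/
noncomputable def orbCount (p j m : ℕ) (M : Ideal (integralClosure ℤ ℂ)) (χ : G → ℂ) (a : A)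
    (σ : ℂ ≃+* ℂ) (C : Finset (Subgroup G)) : ℕ :=
  Nat.card {ψ : G → ℂ // ψ ∈ IrrOn (nrm C) ∧ Induces M ψ χ ∧ Fixed X a σ 1 C ψ ∧
    (galOrbit p j ψ).ncard = m}

/-- The alternating sum of the numbers `orbCount`. -/
noncomputable def orbSum (p j m : ℕ) (M : Ideal (integralClosure ℤ ℂ)) (χ : G → ℂ) (a : A)
    (σ : ℂ ≃+* ℂ) : ℤ :=
  ∑ᶠ c : Quot (chainRel (G := G) p),
    (-1) ^ (c.out.1.card - 1) * (orbCount X p j m M χ a σ c.out.1 : ℤ)

/-- The sum over all `d` and over all subgroups `U` of `A` which contain `a` of Dade's alternating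
sums `∑ (-1)^{|C|} k_C(B, d, U)`. -/
noncomputable def dadeSum (p : ℕ) (M : Ideal (integralClosure ℤ ℂ)) (χ : G → ℂ) (a : A) : ℤ :=
  ∑ᶠ d : ℤ, ∑ᶠ U : {U : Subgroup A // a ∈ U}, altSum X p M χ d U.1

end

end Pool.Agent.GR2
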