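import Pool.Agent.helper83.GR2.Base

set_option autoImplicit false

namespace Pool.Agent.GR2

open Pool.Agent.helper58.DC Pool.Agent.DI
open Pool.Agent.GR (Setup PEl PReg Cz Blk Sf BC GCN_comap GCN_act GCN_fun_mul GCJ_funMap_mul
  GCJ_funMap_one GCJ_act)

theorem GCN (G E A : Type) [Group G] [Group E] [Group A] [Finite G] [Finite E]
    (X : Extension G E A) (M : Ideal (integralClosure ℤ ℂ)) (χ : G → ℂ) (a : A) (σ : ℂ ≃+* ℂ)
    (l : G →* ℂˣ) (C : Finset (Subgroup G)) (hchain : IsChain (· ≤ ·) (C : Set (Subgroup G)))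
    (hne : C.Nonempty) :
    (Nat.card (nrm C) : ℤ) * fixCount X M χ a σ l C = gE X M χ a σ l (nrm (cmap X.inc C)) := by
  have hB14 := GR.All.dB14
  have hB2 := GR.All.dB2
  classical
  have hcom := GCN_comap hB14 G E X.inc X.inc_injective C hne
  have hmem : ∀ e : E, e ∈ nrm (cmap X.inc C) ↔ chainMap (X.act e) C = C := fun e =>
    (hB14 G E X.inc X.inc_injective C).2.2 (X.act e) e (X.act_spec e) hchain
  unfold gE
  rw [hcom]
  by_cases hS : ∃ e₀ : E, e₀ ∈ nrm (cmap X.inc C) ∧ X.proj e₀ = a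
  · obtain ⟨e₀, he₀, he₀a⟩ := hS
    -- the elements over a
    have hdec : ∀ e : E, e ∈ nrm (cmap X.inc C) → X.proj e = a →
        ∃ h ∈ nrm C, e = e₀ * X.inc h := by
      intro e he hea
      have h1 : X.proj (e₀⁻¹ * e) = 1 := by
        rw [map_mul, map_inv, he₀a, hea, inv_mul_cancel]
      obtain ⟨h, hh⟩ := (X.exact _).1 h1
      refine ⟨h, ?_, by rw [hh]; group⟩
      rw [← hcom, Subgroup.mem_comap, hh]
      exact Subgroup.mul_mem _ (Subgroup.inv_mem _ he₀) he
    -- independence of e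
    have hind : ∀ ψ ∈ IrrOn (nrm C), ∀ e : E, e ∈ nrm (cmap X.inc C) → X.proj e = a →
        funMap (X.act e) (galMap σ ψ) = funMap (X.act e₀) (galMap σ ψ) := by
      intro ψ hψ e he hea
      obtain ⟨h, hh, rfl⟩ := hdec e he hea
      rw [map_mul, GCN_act, GCN_fun_mul]
      congr 1
      funext g
      unfold funMap galMap
      congr 1
      have h2 := ((hB2 G (nrm C)).2 ψ hψ).2.1 g h⁻¹ (Subgroup.inv_mem _ hh)
      rw [inv_inv] at h2
      rw [← MulAut.conj_inv_apply] at h2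
      exact h2
    have hcnt : ∀ e ∈ {e : E | e ∈ nrm (cmap X.inc C) ∧ X.proj e = a},
        (cnt M χ (nrm C) (X.act e) σ l : ℤ) = (fixCount X M χ a σ l C : ℤ) := by
      rintro e ⟨he, hea⟩
      unfold cnt fixCount
      congr 1
      apply Nat.card_congr
      refine Equiv.subtypeEquivRight fun ψ => ?_
      constructor
      · rintro ⟨⟨h1, h2⟩, h3⟩
        exact ⟨h1, h2, e, hea, (hmem e).1 he, h3⟩
      · rintro ⟨h1, h2, e', he'a, he', h3⟩
        refine ⟨⟨h1, h2⟩, ?_⟩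
        intro g
        rw [hind ψ h1 e he hea, ← hind ψ h1 e' ((hmem e').2 he') he'a]
        exact h3 g
    rw [finsum_mem_congr rfl hcnt]
    have hset : {e : E | e ∈ nrm (cmap X.inc C) ∧ X.proj e = a} =
        (fun h : G => e₀ * X.inc h) '' (nrm C : Set G) := by
      ext e
      constructor
      · rintro ⟨he, hea⟩
        obtain ⟨h, hh, rfl⟩ := hdec e he hea
        exact ⟨h, hh, rfl⟩
      · rintro ⟨h, hh, rfl⟩
        refine ⟨?_, ?_⟩
        · apply Subgroup.mul_mem _ he₀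
          have hh' : h ∈ nrm C := hh
          rw [← hcom, Subgroup.mem_comap] at hh'
          exact hh'
        · rw [map_mul, he₀a, (X.exact (X.inc h)).2 ⟨h, rfl⟩, mul_one]
    have hinj : Function.Injective (fun h : G => e₀ * X.inc h) := by
      intro h h' heq
      exact X.inc_injective (mul_left_cancel heq)
    rw [hset, finsum_mem_image hinj.injOn,
      finsum_mem_eq_finite_toFinset_sum _ (Set.toFinite _), Finset.sum_const, nsmul_eq_mul,
      ← Set.ncard_eq_toFinset_card]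
    rfl
  · have h1 : {e : E | e ∈ nrm (cmap X.inc C) ∧ X.proj e = a} = ∅ := by
      apply Set.eq_empty_of_forall_notMem
      rintro e ⟨he, hea⟩
      exact hS ⟨e, he, hea⟩
    rw [h1, finsum_mem_empty]
    have h2 : fixCount X M χ a σ l C = 0 := by
      unfold fixCount
      have : IsEmpty {ψ : G → ℂ // ψ ∈ IrrOn (nrm C) ∧ Induces M ψ χ ∧ Fixed X a σ l C ψ} := by
        constructor
        rintro ⟨ψ, -, -, e, hea, hec, -⟩
        exact hS ⟨e, (hmem e).2 hec, hea⟩
      exact Nat.card_of_isEmpty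
    rw [h2]
    simp

theorem GCJ_key
    {G E A : Type} [Group G] [Group E] [Group A] [Finite G] (X : Extension G E A)
    (M : Ideal (integralClosure ℤ ℂ)) (χ : G → ℂ) (hχ : χ ∈ Irr G) (a : A) (σ : ℂ ≃+* ℂ) (l : G →* ℂˣ) (g : G)
    (C : Finset (Subgroup G)) (ψ : G → ℂ)
    (h : ψ ∈ IrrOn (nrm C) ∧ Induces M ψ χ ∧ Fixed X a σ l C ψ) :
    funMap (MulAut.conj g) ψ ∈ IrrOn (nrm (chainMap (MulAut.conj g) C)) ∧
      Induces M (funMap (MulAut.conj g) ψ) χ ∧
      Fixed X a σ l (chainMap (MulAut.conj g) C) (funMap (MulAut.conj g) ψ) := by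
  have hNM := GR.All.dNM
  have hIF := GR.All.dIF
  have hIM := GR.All.dIM
  have hTI := GR.All.dTI
  obtain ⟨h1, h2, e, h3, h4, h5⟩ := h
  obtain ⟨-, -, -, n4, -⟩ := hNM G (MulAut.conj g) C
  have nm : ∀ (α β : MulAut G) (D : Finset (Subgroup G)),
      chainMap (α * β) D = chainMap α (chainMap β D) := fun α β D => (hNM G α D).2.2.2.2.1 β
  refine ⟨?_, ?_, ?_⟩
  · rw [n4]
    exact ((hIF G (nrm C)).2 ψ h1).2.2 _
  · have hc : funMap (MulAut.conj g) χ = χ := by
      funext x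
      have := ((hIF G ⊤).2 χ ((hTI G χ).2 hχ)).2.1 g⁻¹ (Subgroup.mem_top _) x
      rw [inv_inv] at this
      have e1 : (MulAut.conj g)⁻¹ x = g⁻¹ * x * g := by
        rw [← map_inv, MulAut.conj_apply, inv_inv]
      unfold funMap
      rw [e1]
      exact this
    have := ((hIM G M ψ χ χ).2.2.2 (MulAut.conj g)).2 h2
    rwa [hc] at this
  · refine ⟨X.inc g * e * (X.inc g)⁻¹, ?_, ?_, ?_⟩
    · have e1 : X.proj (X.inc g) = 1 := (X.exact _).2 ⟨g, rfl⟩
      rw [map_mul, map_mul, map_inv, e1, h3]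
      simp
    · rw [map_mul, map_mul, map_inv, GCJ_act, ← nm, mul_assoc, inv_mul_cancel, mul_one, nm, h4]
    · have e2 : galMap σ (funMap (MulAut.conj g) ψ) = funMap (MulAut.conj g) (galMap σ ψ) := rfl
      intro x
      rw [map_mul, map_mul, map_inv, GCJ_act, e2, ← GCJ_funMap_mul, mul_assoc, inv_mul_cancel,
        mul_one, GCJ_funMap_mul]
      have e3 : (MulAut.conj g)⁻¹ x = g⁻¹ * x * g := by
        rw [← map_inv, MulAut.conj_apply, inv_inv]
      have e4 : l ((MulAut.conj g)⁻¹ x) = l x := by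
        rw [e3, map_mul, map_mul, mul_comm, ← mul_assoc, ← map_mul, mul_inv_cancel, map_one,
          one_mul]
      show ψ ((MulAut.conj g)⁻¹ x) = _
      rw [h5, e4]
      rfl

theorem GCJ (G E A : Type) [Group G] [Group E] [Group A] [Finite G] (X : Extension G E A)
    (M : Ideal (integralClosure ℤ ℂ)) (χ : G → ℂ) (hχ : χ ∈ Irr G) (a : A) (σ : ℂ ≃+* ℂ)
    (l : G →* ℂˣ) (g : G) (C : Finset (Subgroup G)) :
    fixCount X M χ a σ l (chainMap (MulAut.conj g) C) = fixCount X M χ a σ l C := by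
  have hNM := GR.All.dNM
  have nm : ∀ (α β : MulAut G) (D : Finset (Subgroup G)),
      chainMap (α * β) D = chainMap α (chainMap β D) := fun α β D => (hNM G α D).2.2.2.2.1 β
  have n1 : ∀ D : Finset (Subgroup G), chainMap (1 : MulAut G) D = D := fun D =>
    (hNM G 1 D).2.2.2.2.2.1
  have k1 : chainMap (MulAut.conj g⁻¹) (chainMap (MulAut.conj g) C) = C := by
    rw [← nm, ← map_mul, inv_mul_cancel, map_one, n1]
  unfold fixCount
  refine Nat.card_congr ⟨fun ψ => ⟨funMap (MulAut.conj g⁻¹) ψ.1, ?_⟩,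
    fun ψ => ⟨funMap (MulAut.conj g) ψ.1, GCJ_key X M χ hχ a σ l g C ψ.1 ψ.2⟩, ?_, ?_⟩
  · have := GCJ_key X M χ hχ a σ l g⁻¹ (chainMap (MulAut.conj g) C) ψ.1 ψ.2
    rwa [k1] at this
  · intro ψ
    apply Subtype.ext
    show funMap (MulAut.conj g) (funMap (MulAut.conj g⁻¹) ψ.1) = ψ.1
    rw [← GCJ_funMap_mul, ← map_mul, mul_inv_cancel, map_one, GCJ_funMap_one]
  · intro ψ
    apply Subtype.ext
    show funMap (MulAut.conj g⁻¹) (funMap (MulAut.conj g) ψ.1) = ψ.1
    rw [← GCJ_funMap_mul, ← map_mul, inv_mul_cancel, map_one, GCJ_funMap_one]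

end Pool.Agent.GR2
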