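import Pool.Agent.helper83.GR2.SEC
import Pool.Agent.helper83.GR2.GCN

set_option autoImplicit false

namespace Pool.Agent.GR2

open Pool.Agent.helper58.DC Pool.Agent.DI
open Pool.Agent.GR (Setup PEl PReg Cz Blk Sf BC MA1_fm MA1_rad_ne MA1_nz_range MA1_czcomap
  MA1_cz_one MA1_pzp MA1_nzzp)

theorem MA1 (p : ℕ) (M : Ideal (integralClosure ℤ ℂ)) (hM : Setup p M) (G E A : Type) [Group G]
    [Group E] [Group A] [Finite G] [Finite E] (X : Extension G E A)
    (hOp : IsOp p (⊤ : Subgroup G) ⊥) (χ : G → ℂ) (hχ : χ ∈ Irr G) (a : A) (σ : ℂ ≃+* ℂ)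
    (l : G →* ℂˣ) (s : ℕ) (hs : Ex (Nat.card G) σ s) :
    (Nat.card G : ℂ) * fixSum X p M χ a σ l = ∑ᶠ e ∈ {e : E | X.proj e = a},
      ∑ᶠ C ∈ {C : Finset (Subgroup E) | PCh p X.inc.range ⊥ C ∧ e ∈ nrm C},
        (-1) ^ (C.card + 1) * tau p M χ s l ((nrm C).comap X.inc) (X.act e) := by
  classical
  have hCLA := GR.All.dCLA
  have hQPR := GR.All.dQPR
  have hA7 := GR.All.dA7
  have hA8 := GR.All.dA8
  have hA14 := GR.All.dA14
  have : Fact p.Prime := ⟨hM.1⟩
  let _ : Fintype G := Fintype.ofFinite G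
  let _ : Fintype E := Fintype.ofFinite E
  let _ : Fintype (Subgroup E) := Fintype.ofFinite _
  let _ : Fintype (Finset (Subgroup E)) := Fintype.ofFinite _
  -- step 1
  have h1 := hCLA G p (fun C => (fixCount X M χ a σ l C : ℤ)) (by
    intro g C _
    have := GCJ G E A X M χ hχ a σ l g C
    rw [this])
  have h2 : (Nat.card G : ℤ) * fixSum X p M χ a σ l =
      ∑ᶠ C ∈ {C : Finset (Subgroup G) | IsRadical p C},
        (-1) ^ (C.card + 1) * gE X M χ a σ l (⊤ ⊓ nrm (cmap X.inc C)) := by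
    rw [show fixSum X p M χ a σ l = ∑ᶠ c : Quot (chainRel (G := G) p),
      (-1) ^ (c.out.1.card - 1) * ((fun C => (fixCount X M χ a σ l C : ℤ)) c.out.1) from rfl, h1]
    refine finsum_mem_congr rfl fun C hC => ?_
    have hC' : IsRadical p C := hC
    have := GCN G E A X M χ a σ l C hC'.chain (MA1_rad_ne hC')
    rw [this, top_inf_eq]
  have h3 : (Nat.card G : ℤ) * fixSum X p M χ a σ l = cSum p X.inc.range ⊥ ⊤ (gE X M χ a σ l) := by
    rw [h2, hA8 G E p X.inc X.inc_injective ⊤ (gE X M χ a σ l)]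
    refine hA7 E p X.inc.range ⊥ ⊤ _ ?_ ?_
    · exact ((hA14 G E p X.inc X.inc_injective).2.1).1 hOp
    · rw [MA1_nz_range]
      exact le_top
  -- cast
  have h4 : (Nat.card G : ℂ) * fixSum X p M χ a σ l =
      ∑ C : Finset (Subgroup E), if PCh p X.inc.range ⊥ C then
        (-1) ^ (C.card + 1) * ((gE X M χ a σ l (nrm C) : ℤ) : ℂ) else 0 := by
    have h4' := congrArg (fun n : ℤ => (n : ℂ)) h3
    rw [cSum, MA1_fm] at h4'
    push_cast at h4'
    rw [h4']
    refine Finset.sum_congr rfl fun C _ => ?_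
    by_cases hC : PCh p X.inc.range ⊥ C
    · rw [if_pos (by exact hC), if_pos hC, top_inf_eq]
    · rw [if_neg (by exact hC), if_neg hC]
  have h5 : ∀ N : Subgroup E, ((gE X M χ a σ l N : ℤ) : ℂ) =
      ∑ e : E, ∑ y : G, if (e ∈ N ∧ X.proj e = a) ∧
        (y ∈ N.comap X.inc ∧ PEl p y ∧ ((X.act e)⁻¹ y) ^ s = y) then
        ((l y : ℂˣ) : ℂ) * tau p M χ s l (Cz (N.comap X.inc) y) (X.act e) else 0 := by
    intro N
    have h := SEC p M hM G E A X χ a σ l s hs N
    have h' : ((gE X M χ a σ l N : ℤ) : ℂ) =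
        ∑ᶠ e ∈ {e : E | e ∈ N ∧ X.proj e = a}, (cnt M χ (N.comap X.inc) (X.act e) σ l : ℂ) := by
      rw [gE, MA1_fm, MA1_fm]
      push_cast
      refine Finset.sum_congr rfl fun e _ => ?_
      split_ifs <;> rfl
    rw [h', h, MA1_fm]
    refine Finset.sum_congr rfl fun e _ => ?_
    by_cases he : e ∈ N ∧ X.proj e = a
    · rw [if_pos (by exact he), MA1_fm]
      refine Finset.sum_congr rfl fun y _ => ?_
      by_cases hy : (y ∈ N.comap X.inc ∧ PEl p y ∧ ((X.act e)⁻¹ y) ^ s = y)
      · rw [if_pos (by exact hy), if_pos ⟨he, hy⟩]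
      · rw [if_neg (by exact hy), if_neg (fun h => hy h.2)]
    · rw [if_neg (by exact he)]
      symm
      apply Finset.sum_eq_zero
      intro y _
      rw [if_neg (fun h => he h.1)]
  have h6 : (Nat.card G : ℂ) * fixSum X p M χ a σ l =
      ∑ e : E, ∑ y : G, ∑ C : Finset (Subgroup E),
        if PCh p X.inc.range ⊥ C ∧ (e ∈ nrm C ∧ X.proj e = a) ∧
        (y ∈ (nrm C).comap X.inc ∧ PEl p y ∧ ((X.act e)⁻¹ y) ^ s = y) then
        (-1) ^ (C.card + 1) * (((l y : ℂˣ) : ℂ) * tau p M χ s l (Cz ((nrm C).comap X.inc) y) (X.act e)) else 0 := by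
    rw [h4]
    have : ∀ C : Finset (Subgroup E), (if PCh p X.inc.range ⊥ C then
        (-1) ^ (C.card + 1) * ((gE X M χ a σ l (nrm C) : ℤ) : ℂ) else 0) =
        ∑ e : E, ∑ y : G,
        if PCh p X.inc.range ⊥ C ∧ (e ∈ nrm C ∧ X.proj e = a) ∧
        (y ∈ (nrm C).comap X.inc ∧ PEl p y ∧ ((X.act e)⁻¹ y) ^ s = y) then
        (-1) ^ (C.card + 1) * (((l y : ℂˣ) : ℂ) * tau p M χ s l (Cz ((nrm C).comap X.inc) y) (X.act e)) else 0 := by
      intro C
      by_cases hC : PCh p X.inc.range ⊥ C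
      · rw [if_pos hC, h5, Finset.mul_sum]
        refine Finset.sum_congr rfl fun e _ => ?_
        rw [Finset.mul_sum]
        refine Finset.sum_congr rfl fun y _ => ?_
        by_cases hh : (e ∈ nrm C ∧ X.proj e = a) ∧
          (y ∈ (nrm C).comap X.inc ∧ PEl p y ∧ ((X.act e)⁻¹ y) ^ s = y)
        · rw [if_pos hh, if_pos ⟨hC, hh⟩]
        · rw [if_neg hh, if_neg (fun h => hh h.2), mul_zero]
      · rw [if_neg hC]
        symm
        apply Finset.sum_eq_zero
        intro e _
        apply Finset.sum_eq_zero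
        intro y _
        rw [if_neg (fun h => hC h.1)]
    simp only [this]
    rw [Finset.sum_comm]
    refine Finset.sum_congr rfl fun e _ => ?_
    rw [Finset.sum_comm]
  rw [h6, MA1_fm]
  refine Finset.sum_congr rfl fun e _ => ?_
  by_cases he : X.proj e = a
  · rw [if_pos (by exact he)]
    rw [Finset.sum_eq_single (1 : G)]
    · rw [MA1_fm]
      refine Finset.sum_congr rfl fun C _ => ?_
      by_cases hC : PCh p X.inc.range ⊥ C ∧ e ∈ nrm C
      · have hL : PCh p X.inc.range ⊥ C ∧ (e ∈ nrm C ∧ X.proj e = a) ∧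
            ((1 : G) ∈ (nrm C).comap X.inc ∧ PEl p (1 : G) ∧ ((X.act e)⁻¹ 1) ^ s = 1) :=
          ⟨hC.1, ⟨hC.2, he⟩, Subgroup.one_mem _, ⟨0, by simp⟩, by simp⟩
        rw [if_pos hL, if_pos (by exact hC), MA1_cz_one, map_one, Units.val_one, one_mul]
      · have hL : ¬ (PCh p X.inc.range ⊥ C ∧ (e ∈ nrm C ∧ X.proj e = a) ∧
            ((1 : G) ∈ (nrm C).comap X.inc ∧ PEl p (1 : G) ∧ ((X.act e)⁻¹ 1) ^ s = 1)) :=
          fun h => hC ⟨h.1, h.2.1.1⟩
        rw [if_neg hL, if_neg (by exact hC)]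
    · intro y _ hy
      by_cases hy2 : PEl p y ∧ ((X.act e)⁻¹ y) ^ s = y
      · have hq := hQPR E p X.inc.range (Subgroup.zpowers (X.inc y))
          (Subgroup.centralizer {X.inc y}) e 
          (fun K => ((l y : ℂˣ) : ℂ) * tau p M χ s l (K.comap X.inc) (X.act e))
          (MA1_pzp (by
            obtain ⟨k, hk⟩ := hy2.1
            exact ⟨k, by rw [← map_pow, hk, map_one]⟩))
          (by
            rw [Subgroup.zpowers_le]
            exact ⟨y, rfl⟩)
          (by
            rw [Ne, Subgroup.zpowers_eq_bot]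
            intro h
            exact hy (X.inc_injective (by rw [h, map_one])))
          (by
            rw [Subgroup.zpowers_le, Subgroup.mem_centralizer_singleton_iff])
          (by
            apply MA1_nzzp
            have h7 : X.act e y = y ^ s := by
              have h8 := congrArg (X.act e) hy2.2
              rw [map_pow] at h8
              rw [← h8]
              congr 1
              exact MulEquiv.apply_symm_apply (X.act e) y
            rw [← X.act_spec, h7, map_pow]
            exact Subgroup.npow_mem_zpowers _ _)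
          (by
            intro g hg
            apply MA1_nzzp
            rw [Subgroup.mem_centralizer_singleton_iff] at hg
            rw [hg, mul_inv_cancel_right]
            exact Subgroup.mem_zpowers _)
        rw [MA1_fm] at hq
        refine Eq.trans (Finset.sum_congr rfl fun C _ => ?_) hq
        by_cases hC : PCh p X.inc.range ⊥ C ∧ e ∈ nrm C ∧ Subgroup.zpowers (X.inc y) ≤ nrm C
        · have hL : PCh p X.inc.range ⊥ C ∧ (e ∈ nrm C ∧ X.proj e = a) ∧
              (y ∈ (nrm C).comap X.inc ∧ PEl p y ∧ ((X.act e)⁻¹ y) ^ s = y) := by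
            refine ⟨hC.1, ⟨hC.2.1, he⟩, ?_, hy2⟩
            have h9 := hC.2.2
            rw [Subgroup.zpowers_le] at h9
            exact h9
          rw [if_pos hL, if_pos (by exact hC), MA1_czcomap]
        · have hL : ¬ (PCh p X.inc.range ⊥ C ∧ (e ∈ nrm C ∧ X.proj e = a) ∧
              (y ∈ (nrm C).comap X.inc ∧ PEl p y ∧ ((X.act e)⁻¹ y) ^ s = y)) := by
            intro h
            refine hC ⟨h.1, h.2.1.1, ?_⟩
            rw [Subgroup.zpowers_le]
            exact h.2.2.1
          rw [if_neg hL, if_neg (by exact hC)]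
      · apply Finset.sum_eq_zero
        intro C _
        rw [if_neg (fun h => hy2 h.2.2.2)]
    · intro h
      exact absurd (Finset.mem_univ _) h
  · rw [if_neg (by exact he)]
    apply Finset.sum_eq_zero
    intro y _
    apply Finset.sum_eq_zero
    intro C _
    rw [if_neg (fun h => he h.2.1.2)]

end Pool.Agent.GR2
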