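import Pool.Agent.helper83.GR2.OCT

set_option autoImplicit false

namespace Pool.Agent.GR2

open Pool.Agent.helper58.DC Pool.Agent.DI
open Pool.Agent.GR (Setup PEl PReg Cz Blk Sf BC)

/-- Exponents of automorphisms which agree on the roots of unity of order prime to `p`. -/
theorem exp_modEq {p n : ℕ} (hn : 0 < n) {σ τ : ℂ ≃+* ℂ} {s t : ℕ} (hs : Ex n σ s) (ht : Ex n τ t)
    (h : ∀ ζ : ℂ, ζ ^ n = 1 → ¬ p ∣ orderOf ζ → σ ζ = τ ζ) (m : ℕ) (hm : m ∣ n)
    (hpm : ¬ p ∣ m) : s ≡ t [MOD m] := by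
  obtain ⟨k, hk⟩ := hm
  have hζ : IsPrimitiveRoot (Complex.exp (2 * Real.pi * Complex.I / n)) n :=
    Complex.isPrimitiveRoot_exp n hn.ne'
  have h1 : IsPrimitiveRoot ((Complex.exp (2 * Real.pi * Complex.I / n)) ^ k) m :=
    hζ.pow hn (by rw [hk, mul_comm])
  set ζ : ℂ := (Complex.exp (2 * Real.pi * Complex.I / n)) ^ k with hζd
  have h2 : ζ ^ n = 1 := by rw [hk, pow_mul, h1.pow_eq_one, one_pow]
  have h3 : σ ζ = τ ζ := by
    apply h ζ h2
    rw [← h1.eq_orderOf]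
    exact hpm
  rw [hs.act ζ h2, ht.act ζ h2] at h3
  have hne : ζ ≠ 0 := by
    intro h0
    rw [h0, zero_pow hn.ne'] at h2
    exact zero_ne_one h2
  have h5 : (Units.mk0 ζ hne) ^ s = (Units.mk0 ζ hne) ^ t := Units.ext (by simpa using h3)
  have h4 := pow_eq_pow_iff_modEq.1 h5
  rwa [← orderOf_units, Units.val_mk0, ← h1.eq_orderOf] at h4

theorem tau_congr {p : ℕ} (M : Ideal (integralClosure ℤ ℂ)) {G : Type} [Group G] [Finite G]
    (χ : G → ℂ) {s t : ℕ} (hst : ∀ m : ℕ, m ∣ Nat.card G → ¬ p ∣ m → s ≡ t [MOD m])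
    {l m : G →* ℂˣ} (hlm : ∀ g : G, ¬ p ∣ orderOf g → l g = m g) (L : Subgroup G)
    (α : MulAut G) : tau p M χ s l L α = tau p M χ t m L α := by
  unfold tau
  congr 1
  refine finsum_mem_congr rfl fun v hv => ?_
  have h1 : ¬ p ∣ orderOf v := hv.2
  have h2 : orderOf (α⁻¹ v) = orderOf v := MulEquiv.orderOf_eq (α⁻¹ : MulAut G) v
  have h3 : (α⁻¹ v) ^ s = (α⁻¹ v) ^ t := by
    apply pow_eq_pow_iff_modEq.2
    apply hst _ (orderOf_dvd_natCard _)
    rw [h2]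
    exact h1
  rw [hlm v h1, h3]

/-- Rigidity. -/
theorem rigid (p : ℕ) (M : Ideal (integralClosure ℤ ℂ)) (hM : Setup p M) (G E A : Type) [Group G]
    [Group E] [Group A] [Finite G] [Finite E] (X : Extension G E A)
    (hOp : IsOp p (⊤ : Subgroup G) ⊥) (χ : G → ℂ) (hχ : χ ∈ Irr G) (a : A) (σ τ : ℂ ≃+* ℂ)
    (l m : G →* ℂˣ) (hσ : ∀ ζ : ℂ, ζ ^ Nat.card G = 1 → ¬ p ∣ orderOf ζ → σ ζ = τ ζ)
    (hlm : ∀ g : G, ¬ p ∣ orderOf g → l g = m g) :
    fixSum X p M χ a σ l = fixSum X p M χ a τ m := by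
  obtain ⟨s, hs⟩ := exists_Ex p (Nat.card G) hM.pr Nat.card_pos σ
  obtain ⟨t, ht⟩ := exists_Ex p (Nat.card G) hM.pr Nat.card_pos τ
  have h1 := MA1 p M hM G E A X hOp χ hχ a σ l s hs
  have h2 := MA1 p M hM G E A X hOp χ hχ a τ m t ht
  have h3 : (Nat.card G : ℂ) ≠ 0 := by exact_mod_cast Nat.card_pos.ne'
  have h4 : (Nat.card G : ℂ) * fixSum X p M χ a σ l =
      (Nat.card G : ℂ) * fixSum X p M χ a τ m := by
    rw [h1, h2]
    refine finsum_mem_congr rfl fun e _ => finsum_mem_congr rfl fun C _ => ?_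
    rw [tau_congr M χ (exp_modEq Nat.card_pos hs ht hσ) hlm]
  exact_mod_cast mul_left_cancel₀ h3 h4

theorem total (p : ℕ) (M : Ideal (integralClosure ℤ ℂ)) (G E A : Type) [Group G]
    [Group E] [Group A] [Finite G] [Finite E] (X : Extension G E A) (χ : G → ℂ) (a : A) :
    fixSum X p M χ a (RingEquiv.refl ℂ) 1 = dadeSum X p M χ a := by
  have h1 := GR.All.dTOT G E A X p M χ a
  have h2 : GR.dadeSum X p M χ a = dadeSum X p M χ a := rfl
  rw [← h2, ← h1]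
  unfold fixSum GR.galSum
  refine finsum_congr fun c => ?_
  congr 2
  unfold fixCount GR.galCount
  refine Nat.card_congr (Equiv.subtypeEquivRight fun ψ => ?_)
  rw [fixed_one]
  rfl

theorem PFix_mono {p j n : ℕ} {σ : ℂ ≃+* ℂ} (h : PFix p j n σ) : PFix p 0 n σ := by
  intro ζ h1 h2
  refine h ζ h1 fun h3 => h2 (dvd_trans (pow_dvd_pow p (by omega)) h3)

theorem PFix_pow {p j n : ℕ} {σ : ℂ ≃+* ℂ} (h : PFix p j n σ) (k : ℕ) : PFix p j n (σ ^ k) := by
  intro ζ h1 h2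
  induction k with
  | zero => rfl
  | succ k ih =>
    rw [pow_succ]
    change (σ ^ k) (σ ζ) = ζ
    rw [h ζ h1 h2, ih]

theorem orbit (p : ℕ) (M : Ideal (integralClosure ℤ ℂ)) (hM : Setup p M) (G E A : Type) [Group G]
    [Group E] [Group A] [Finite G] [Finite E] (X : Extension G E A)
    (hOp : IsOp p (⊤ : Subgroup G) ⊥) (χ : G → ℂ) (hχ : χ ∈ Irr G) (a : A) (σ : ℂ ≃+* ℂ)
    (j m : ℕ) (hp : p ≠ 2 ∨ 2 ≤ j)
    (ha : (a = 1 ∧ σ = RingEquiv.refl ℂ) ∨ (1 ≤ j ∧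
      ∃ o : ℕ, ¬ p ∣ o ∧ a ^ o = 1 ∧ ∀ ζ : ℂ, ζ ^ Nat.card G = 1 → (σ ^ o) ζ = ζ)) :
    orbSum X p j m M χ a σ = if m = 1 then fixSum X p M χ a σ 1 else 0 := by
  obtain ⟨γ, hγ, hgen, hpp⟩ := GR.All.dCYC p j (Nat.card G) hM.pr Nat.card_pos hp
  have ha' : (a = 1 ∧ σ = RingEquiv.refl ℂ) ∨
      ((∃ t : ℕ, ∀ ζ : ℂ, ζ ^ Nat.card G = 1 → (γ ^ (p ^ t)) ζ = ζ) ∧
      ∃ o : ℕ, ¬ p ∣ o ∧ a ^ o = 1 ∧ ∀ ζ : ℂ, ζ ^ Nat.card G = 1 → (σ ^ o) ζ = ζ) := by
    rcases ha with ha | ⟨h1, h2⟩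
    · exact Or.inl ha
    · exact Or.inr ⟨hpp h1, h2⟩
  have : Finite (Quot (chainRel (G := G) p)) := inferInstance
  have : Fintype (Quot (chainRel (G := G) p)) := Fintype.ofFinite _
  -- the relation for `k ≥ 1`
  have key : ∀ k : ℕ, 1 ≤ k → fixSum X p M χ a σ 1 =
      ∑ m ∈ k.divisors, orbSum X p j m M χ a σ := by
    intro k hk
    have h0 : fixSum X p M χ a σ 1 = fixSum X p M χ a (σ * γ ^ k) 1 := by
      refine rigid p M hM G E A X hOp χ hχ a σ (σ * γ ^ k) 1 1 (fun ζ h1 h2 => ?_) fun _ _ => rfl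
      have h3 : (γ ^ k) ζ = ζ := PFix_mono (PFix_pow hγ k) ζ h1 (by simpa using h2)
      show σ ζ = σ ((γ ^ k) ζ)
      rw [h3]
    rw [h0]
    unfold fixSum orbSum
    simp only [finsum_eq_sum_of_fintype]
    rw [Finset.sum_comm]
    refine Finset.sum_congr rfl fun c _ => ?_
    rw [(OCT p j hM.pr M G E A X χ a σ c.out.1 γ c.out.2.chain hγ hgen ha').2 k hk]
    push_cast
    rw [Finset.mul_sum]
  have hone : orbSum X p j 1 M χ a σ = fixSum X p M χ a σ 1 := by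
    have := key 1 le_rfl
    simpa using this.symm
  have hzero : orbSum X p j 0 M χ a σ = 0 := by
    unfold orbSum
    rw [finsum_eq_sum_of_fintype]
    refine Finset.sum_eq_zero fun c _ => ?_
    rw [(OCT p j hM.pr M G E A X χ a σ c.out.1 γ c.out.2.chain hγ hgen ha').1]
    simp
  have hrec : ∀ k : ℕ, 2 ≤ k → orbSum X p j k M χ a σ = 0 := by
    intro k
    induction k using Nat.strong_induction_on with
    | _ k ih =>
      intro hk
      have h1 := key k (by omega)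
      have hkd : k ∈ k.divisors := Nat.mem_divisors_self k (by omega)
      have h1d : (1 : ℕ) ∈ (k.divisors).erase k :=
        Finset.mem_erase.2 ⟨by omega, Nat.one_mem_divisors.2 (by omega)⟩
      rw [← Finset.add_sum_erase _ _ hkd, ← Finset.add_sum_erase _ _ h1d, hone] at h1
      have h2 : ∑ x ∈ ((k.divisors).erase k).erase 1, orbSum X p j x M χ a σ = 0 := by
        refine Finset.sum_eq_zero fun x hx => ?_
        simp only [Finset.mem_erase, Nat.mem_divisors] at hx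
        obtain ⟨hx1, hxk, hxd, _⟩ := hx
        have hxpos : 0 < x := Nat.pos_of_dvd_of_pos hxd (by omega)
        have hxle : x ≤ k := Nat.le_of_dvd (by omega) hxd
        exact ih x (by omega) (by omega)
      rw [h2] at h1
      linarith
  rcases Nat.lt_or_ge m 2 with hm | hm
  · interval_cases m
    · simpa using hzero
    · simpa using hone
  · rw [hrec m hm, if_neg (by omega)]

end Pool.Agent.GR2
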