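import Pool.Agent.helper83.GR2.MA1

set_option autoImplicit false

namespace Pool.Agent.GR2

open Pool.Agent.helper58.DC Pool.Agent.DI
open Pool.Agent.GR (Setup PEl PReg Cz Blk Sf BC OCT_actinc OCT_fun_mul OCT_chain_mul OCT_chain_one
  OCT_conj)

theorem iter {G : Type} (γ : ℂ ≃+* ℂ) (i : ℕ) (ψ : G → ℂ) :
    (galMap γ)^[i] ψ = galMap (γ ^ i) ψ := GR.OCT_iter γ i ψ

theorem agree {p : ℕ} (hp : p.Prime) {G : Type} [Group G]
    [Finite G] (H : Subgroup G) {σ τ : ℂ ≃+* ℂ}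
    (h : ∀ ζ : ℂ, ζ ^ Nat.card G = 1 → σ ζ = τ ζ) {ψ : G → ℂ} (hψ : ψ ∈ IrrOn H) :
    galMap σ ψ = galMap τ ψ := GR.OCT_agree GR.All.dGLS GR.All.dGLP hp H h hψ

theorem gal_irr {G : Type} [Group G] [Finite G] (H : Subgroup G) (σ : ℂ ≃+* ℂ) {ψ : G → ℂ}
    (hψ : ψ ∈ IrrOn H) : galMap σ ψ ∈ IrrOn H := GR.All.dGLI G H σ ψ hψ

theorem fixed_one {G E A : Type} [Group G] [Group E] [Group A] (X : Extension G E A) (a : A)
    (σ : ℂ ≃+* ℂ) (C : Finset (Subgroup G)) (ψ : G → ℂ) :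
    Fixed X a σ 1 C ψ ↔ ∃ e : E, X.proj e = a ∧ chainMap (X.act e) C = C ∧
      funMap (X.act e) (galMap σ ψ) = ψ := by
  constructor
  · rintro ⟨e, h1, h2, h3⟩
    refine ⟨e, h1, h2, ?_⟩
    funext g
    rw [h3 g]
    simp
  · rintro ⟨e, h1, h2, h3⟩
    refine ⟨e, h1, h2, fun g => ?_⟩
    rw [h3]
    simp

theorem gal_comm {p : ℕ} (hp : p.Prime) {G : Type} [Group G] [Finite G] (H : Subgroup G)
    (σ τ : ℂ ≃+* ℂ) {ψ : G → ℂ} (hψ : ψ ∈ IrrOn H) :
    galMap σ (galMap τ ψ) = galMap τ (galMap σ ψ) := by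
  obtain ⟨s, hs⟩ := exists_Ex p (Nat.card G) hp Nat.card_pos σ
  obtain ⟨t, ht⟩ := exists_Ex p (Nat.card G) hp Nat.card_pos τ
  funext g
  have h1 : ∀ φ ∈ IrrOn H, ∀ x, galMap σ φ x = φ (x ^ s) := fun φ hφ x =>
    GR.All.dGLP G σ s hs.cop hs.act H φ hφ x
  have h2 : ∀ φ ∈ IrrOn H, ∀ x, galMap τ φ x = φ (x ^ t) := fun φ hφ x =>
    GR.All.dGLP G τ t ht.cop ht.act H φ hφ x
  rw [h1 _ (gal_irr H τ hψ), h2 _ hψ, h2 _ (gal_irr H σ hψ), h1 _ hψ, ← pow_mul, ← pow_mul,
    mul_comm]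

theorem gal_mul {G : Type} (σ τ : ℂ ≃+* ℂ) (ψ : G → ℂ) :
    galMap (σ * τ) ψ = galMap σ (galMap τ ψ) := rfl

/-- The main claim. -/
theorem claim (p : ℕ) (hp : p.Prime) (G E A : Type) [Group G] [Group E]
    [Group A] [Finite G] [Finite E] (X : Extension G E A) (a : A) (σ : ℂ ≃+* ℂ)
    (C : Finset (Subgroup G)) (γ : ℂ ≃+* ℂ) (hC : IsChain (· ≤ ·) (C : Set (Subgroup G)))
    (ha : (a = 1 ∧ σ = RingEquiv.refl ℂ) ∨
      ((∃ t : ℕ, ∀ ζ : ℂ, ζ ^ Nat.card G = 1 → (γ ^ (p ^ t)) ζ = ζ) ∧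
      ∃ o : ℕ, ¬ p ∣ o ∧ a ^ o = 1 ∧ ∀ ζ : ℂ, ζ ^ Nat.card G = 1 → (σ ^ o) ζ = ζ))
    (k : ℕ) (ψ : G → ℂ) (hψ : ψ ∈ IrrOn (nrm C)) :
    Fixed X a (σ * γ ^ k) 1 C ψ ↔ (Fixed X a σ 1 C ψ ∧ (galMap γ)^[k] ψ = ψ) := by
  have hSN := GR.All.dSN
  have hB2 := GR.All.dB2
  have hgal : ∀ i, galMap (γ ^ i) ψ ∈ IrrOn (nrm C) := fun i => gal_irr (nrm C) (γ ^ i) hψ
  rw [fixed_one, fixed_one]
  constructor
  · rintro ⟨e, he, hec, hf⟩
    rcases ha with ⟨rfl, rfl⟩ | ⟨⟨t, ht⟩, o, hpo, hao, hσo⟩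
    · obtain ⟨h, rfl⟩ := (X.exact e).1 he
      rw [OCT_actinc] at hec hf
      have hh : h ∈ nrm C := (hSN G C hC h).1 hec
      have hf' : funMap (MulAut.conj h) (galMap (γ ^ k) ψ) = ψ := hf
      rw [OCT_conj hB2 (nrm C) (hgal k) hh] at hf'
      refine ⟨⟨1, map_one _, ?_, ?_⟩, by rw [iter]; exact hf'⟩
      · rw [map_one]
        exact OCT_chain_one C
      · rw [map_one]
        rfl
    · set f : (G → ℂ) → (G → ℂ) := galMap γ with hfdef
      set T : (G → ℂ) → (G → ℂ) := fun φ => funMap (X.act e) (galMap σ φ) with hT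
      -- iterates of `T`
      have hTi : ∀ i : ℕ, ∀ φ : G → ℂ, T^[i] φ = funMap (X.act (e ^ i)) (galMap (σ ^ i) φ) := by
        intro i
        induction i with
        | zero =>
          intro φ
          rw [pow_zero, map_one]
          rfl
        | succ i ih =>
          intro φ
          rw [Function.iterate_succ_apply', ih]
          show funMap (X.act e) (galMap σ (funMap (X.act (e ^ i)) (galMap (σ ^ i) φ))) = _
          have h0 : galMap σ (funMap (X.act (e ^ i)) (galMap (σ ^ i) φ)) =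
            funMap (X.act (e ^ i)) (galMap (σ ^ (i + 1)) φ) := by
            rw [pow_succ', gal_mul]
            rfl
          rw [h0, ← OCT_fun_mul, ← map_mul, ← pow_succ']
      have hci : ∀ i : ℕ, chainMap (X.act (e ^ i)) C = C := by
        intro i
        induction i with
        | zero => rw [pow_zero, map_one]; exact OCT_chain_one C
        | succ i ih => rw [pow_succ', map_mul, OCT_chain_mul, ih, hec]
      have hTo : ∀ φ ∈ IrrOn (nrm C), T^[o] φ = φ := by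
        intro φ hφ
        rw [hTi]
        have h1 : X.proj (e ^ o) = 1 := by rw [map_pow, he, hao]
        obtain ⟨h, hh⟩ := (X.exact _).1 h1
        have h2 := hci o
        rw [← hh, OCT_actinc] at h2 ⊢
        have h3 : galMap (σ ^ o) φ = galMap (RingEquiv.refl ℂ) φ :=
          agree hp (nrm C) (fun ζ hζ => hσo ζ hζ) hφ
        rw [h3]
        exact OCT_conj hB2 (nrm C) hφ ((hSN G C hC h).1 h2)
      have hmapC : (nrm C).map (X.act e).toMonoidHom = nrm C := by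
        have := (GR.All.dNM G (X.act e) C).2.2.2.1
        rw [hec] at this
        exact this.symm
      -- `T` commutes with `f` on `IrrOn (nrm C)`
      have hTf : ∀ i : ℕ, ∀ φ ∈ IrrOn (nrm C), T (f^[i] φ) = f^[i] (T φ) := by
        intro i φ hφ
        rw [iter, iter]
        show funMap (X.act e) (galMap σ (galMap (γ ^ i) φ)) =
          galMap (γ ^ i) (funMap (X.act e) (galMap σ φ))
        rw [gal_comm hp (nrm C) σ (γ ^ i) hφ]
        rfl
      have hTψ : T (f^[k] ψ) = ψ := by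
        rw [iter]
        exact hf
      -- iterates
      have hit : ∀ i : ℕ, T^[i] (f^[k * i] ψ) = ψ := by
        intro i
        induction i with
        | zero => rfl
        | succ i ih =>
          have h3 : f^[k * (i + 1)] ψ = f^[k * i] (f^[k] ψ) := by
            rw [← Function.iterate_add_apply]
            congr 2
          rw [h3, Function.iterate_succ_apply, hTf, hTψ, ih]
          rw [iter]
          exact hgal k
      have h5 : f^[k * o] ψ = ψ := by
        have := hit o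
        rw [iter] at this
        rw [iter]
        rwa [hTo _ (hgal _)] at this
      have h6 : f^[k * p ^ t] ψ = ψ := by
        rw [iter]
        have h7 : galMap (γ ^ (k * p ^ t)) ψ = galMap (RingEquiv.refl ℂ) ψ := by
          refine agree hp (nrm C) (fun ζ hζ => ?_) hψ
          change (γ ^ (k * p ^ t)) ζ = ζ
          rw [mul_comm, pow_mul]
          have h8 : ∀ i : ℕ, ((γ ^ (p ^ t)) ^ i) ζ = ζ := by
            intro i
            induction i with
            | zero => rfl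
            | succ i ih =>
              rw [pow_succ]
              change ((γ ^ (p ^ t)) ^ i) ((γ ^ (p ^ t)) ζ) = ζ
              rw [ht ζ hζ, ih]
          exact h8 k
        rw [h7]
        rfl
      -- coprimality
      have h9 : Function.IsPeriodicPt f (k * o) ψ := h5
      have h10 : Function.IsPeriodicPt f (k * p ^ t) ψ := h6
      have h11 : Nat.Coprime o (p ^ t) := by
        apply Nat.Coprime.pow_right
        exact (Nat.Coprime.symm ((Nat.Prime.coprime_iff_not_dvd hp).2 hpo))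
      have h12 : Function.IsPeriodicPt f k ψ := by
        have := h9.gcd h10
        rwa [Nat.gcd_mul_left, h11.gcd_eq_one, mul_one] at this
      have h13 : f^[k] ψ = ψ := h12
      refine ⟨⟨e, he, hec, ?_⟩, h12⟩
      rw [h13] at hTψ
      exact hTψ
  · rintro ⟨⟨e, he, hec, hf⟩, hk⟩
    refine ⟨e, he, hec, ?_⟩
    rw [gal_mul, ← iter, hk]
    exact hf

theorem OCT (p j : ℕ) (hp : p.Prime) (M : Ideal (integralClosure ℤ ℂ)) (G E A : Type) [Group G]
    [Group E] [Group A] [Finite G] [Finite E] (X : Extension G E A) (χ : G → ℂ) (a : A)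
    (σ : ℂ ≃+* ℂ) (C : Finset (Subgroup G)) (γ : ℂ ≃+* ℂ)
    (hC : IsChain (· ≤ ·) (C : Set (Subgroup G))) (hγ : PFix p j (Nat.card G) γ)
    (hgen : ∀ σ : ℂ ≃+* ℂ, PFix p j (Nat.card G) σ →
      ∃ k : ℕ, ∀ ζ : ℂ, ζ ^ Nat.card G = 1 → σ ζ = (γ ^ k) ζ)
    (ha : (a = 1 ∧ σ = RingEquiv.refl ℂ) ∨
      ((∃ t : ℕ, ∀ ζ : ℂ, ζ ^ Nat.card G = 1 → (γ ^ (p ^ t)) ζ = ζ) ∧
      ∃ o : ℕ, ¬ p ∣ o ∧ a ^ o = 1 ∧ ∀ ζ : ℂ, ζ ^ Nat.card G = 1 → (σ ^ o) ζ = ζ)) :
    orbCount X p j 0 M χ a σ C = 0 ∧ ∀ k : ℕ, 1 ≤ k →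
      fixCount X M χ a (σ * γ ^ k) 1 C = ∑ m ∈ k.divisors, orbCount X p j m M χ a σ C := by
  classical
  have hB2 := GR.All.dB2
  -- orbits
  have hgal : ∀ ψ ∈ IrrOn (nrm C), ∀ i, (galMap γ)^[i] ψ ∈ IrrOn (nrm C) := fun ψ hψ i => by
    rw [iter]
    exact gal_irr (nrm C) (γ ^ i) hψ
  have hfin : (IrrOn (nrm C)).Finite := (hB2 G (nrm C)).1
  have hper : ∀ ψ ∈ IrrOn (nrm C), 0 < Function.minimalPeriod (galMap γ) ψ := by
    intro ψ hψ
    rw [Function.minimalPeriod_pos_iff_mem_periodicPts]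
    have h1 : ¬ Function.Injective (fun i : ℕ => (galMap γ)^[i] ψ) := by
      intro hinj
      have h2 : (Set.range (fun i : ℕ => (galMap γ)^[i] ψ)).Finite :=
        hfin.subset (by rintro _ ⟨i, rfl⟩; exact hgal ψ hψ i)
      exact Set.infinite_range_of_injective hinj h2
    simp only [Function.Injective, not_forall] at h1
    obtain ⟨x, y, hxy, hne⟩ := h1
    wlog hlt : x < y generalizing x y
    · exact this y x hxy.symm (Ne.symm hne) (by omega)
    refine ⟨y - x, by omega, ?_⟩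
    change (galMap γ)^[y - x] ψ = ψ
    apply (GR.OCT_inj γ).iterate x
    change (galMap γ)^[x] ((galMap γ)^[y - x] ψ) = (galMap γ)^[x] ψ
    rw [← Function.iterate_add_apply]
    rw [show x + (y - x) = y by omega]
    exact hxy.symm
  have horb : ∀ ψ ∈ IrrOn (nrm C), galOrbit p j ψ =
      (fun i : ℕ => (galMap γ)^[i] ψ) '' (Set.Iio (Function.minimalPeriod (galMap γ) ψ)) := by
    intro ψ hψ
    ext φ
    constructor
    · rintro ⟨σ, hσ, rfl⟩
      obtain ⟨k, hk⟩ := hgen σ hσ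
      refine ⟨k % Function.minimalPeriod (galMap γ) ψ, Nat.mod_lt _ (hper ψ hψ), ?_⟩
      change (galMap γ)^[k % Function.minimalPeriod (galMap γ) ψ] ψ = galMap σ ψ
      rw [Function.iterate_mod_minimalPeriod_eq, iter]
      exact (agree hp (nrm C) hk hψ).symm
    · rintro ⟨i, _, rfl⟩
      refine ⟨γ ^ i, ?_, ?_⟩
      · intro ζ h1 h2
        have h3 : ∀ i : ℕ, (γ ^ i) ζ = ζ := by
          intro i
          induction i with
          | zero => rfl
          | succ i ih =>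
            rw [pow_succ]
            change (γ ^ i) (γ ζ) = ζ
            rw [hγ ζ h1 h2, ih]
        exact h3 i
      · exact iter γ i ψ
  have hcard : ∀ ψ ∈ IrrOn (nrm C),
      (galOrbit p j ψ).ncard = Function.minimalPeriod (galMap γ) ψ := by
    intro ψ hψ
    rw [horb ψ hψ, Set.InjOn.ncard_image]
    · rw [← Nat.card_coe_set_eq]
      simp
    · exact Function.iterate_injOn_Iio_minimalPeriod
  constructor
  · unfold orbCount
    rw [Nat.card_eq_zero]
    left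
    refine ⟨fun ψ => ?_⟩
    have h1 := ψ.2.2.2.2
    rw [hcard ψ.1 ψ.2.1] at h1
    exact (hper ψ.1 ψ.2.1).ne' h1
  · intro k hk
    set S : Set (G → ℂ) := {ψ | ψ ∈ IrrOn (nrm C) ∧ Induces M ψ χ ∧
      Fixed X a σ 1 C ψ} with hSdef
    have hSfin : S.Finite := hfin.subset fun ψ h => h.1
    have hmem : ∀ ψ, ψ ∈ hSfin.toFinset ↔ (ψ ∈ IrrOn (nrm C) ∧ Induces M ψ χ ∧
        Fixed X a σ 1 C ψ) := fun ψ => by
      rw [Set.Finite.mem_toFinset]
      rfl
    have hl : fixCount X M χ a (σ * γ ^ k) 1 C =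
        (hSfin.toFinset.filter (fun ψ => (galOrbit p j ψ).ncard ∣ k)).card := by
      unfold fixCount
      rw [← Set.ncard_coe_finset, ← Nat.card_coe_set_eq]
      refine Nat.card_congr (Equiv.subtypeEquivRight fun ψ => ?_)
      rw [Finset.mem_coe, Finset.mem_filter, hmem]
      constructor
      · rintro ⟨h1, h2, h3⟩
        obtain ⟨h4, h5⟩ := (claim p hp G E A X a σ C γ hC ha k ψ h1).1 h3
        exact ⟨⟨h1, h2, h4⟩, by rw [hcard ψ h1]; exact Function.IsPeriodicPt.minimalPeriod_dvd h5⟩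
      · rintro ⟨⟨h1, h2, h4⟩, h5⟩
        refine ⟨h1, h2, (claim p hp G E A X a σ C γ hC ha k ψ h1).2 ⟨h4, ?_⟩⟩
        rw [hcard ψ h1] at h5
        exact (Function.isPeriodicPt_iff_minimalPeriod_dvd).2 h5
    have hr : ∀ m ∈ k.divisors, orbCount X p j m M χ a σ C =
        ((hSfin.toFinset.filter (fun ψ => (galOrbit p j ψ).ncard ∣ k)).filter
          (fun ψ => (galOrbit p j ψ).ncard = m)).card := by
      intro m hm
      unfold orbCount
      rw [← Set.ncard_coe_finset, ← Nat.card_coe_set_eq]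
      refine Nat.card_congr (Equiv.subtypeEquivRight fun ψ => ?_)
      rw [Finset.mem_coe, Finset.mem_filter, Finset.mem_filter, hmem]
      constructor
      · rintro ⟨h1, h2, h3, h4⟩
        exact ⟨⟨⟨h1, h2, h3⟩, by rw [h4]; exact Nat.dvd_of_mem_divisors hm⟩, h4⟩
      · rintro ⟨⟨⟨h1, h2, h3⟩, _⟩, h4⟩
        exact ⟨h1, h2, h3, h4⟩
    rw [hl, Finset.sum_congr rfl hr]
    refine Finset.card_eq_sum_card_fiberwise fun ψ hψ => ?_
    rw [Finset.mem_coe, Finset.mem_filter] at hψ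
    exact Finset.mem_coe.2 (Nat.mem_divisors.2 ⟨hψ.2, by omega⟩)

end Pool.Agent.GR2
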